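import Pool.Agent.GT.StmtsA

/-!
Squad GT, row A_COR: the density increment on an intersection of insensitive sets.
-/

open Finset

namespace Pool.Agent.GT.H94

theorem rp_apply {ι : Type} {k : ℕ} (x : ι → Fin (k + 1)) (a : Fin k) (j : ι) :
    (rp x a j).castSucc = if x j = Fin.last k then a.castSucc else x j := by
  unfold rp
  by_cases h : x j = Fin.last k
  · rw [dif_pos h, if_pos h]
  · rw [dif_neg h, if_neg h, Fin.castSucc_castPred]

theorem rp_eqv {ι : Type} {k : ℕ} {a : Fin k} {x x' : ι → Fin (k + 1)} (h : Eqv a x x') :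
    rp x a = rp x' a := by
  funext j
  apply Fin.castSucc_injective
  rw [rp_apply, rp_apply]
  rcases h j with h1 | ⟨h1, h2⟩
  · rw [h1]
  · have key : ∀ z : Fin (k + 1), (z = a.castSucc ∨ z = Fin.last k) →
        (if z = Fin.last k then a.castSucc else z) = a.castSucc := by
      intro z hz
      by_cases hzl : z = Fin.last k
      · rw [if_pos hzl]
      · rw [if_neg hzl]
        rcases hz with hz | hz
        · exact hz
        · exact absurd hz hzl
    rw [key _ h1, key _ h2]

theorem Ins.compl {ι : Type} [Fintype ι] [DecidableEq ι] {k : ℕ} {a : Fin k}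
    {D : Finset (ι → Fin (k + 1))} (h : Ins a D) : Ins a Dᶜ := by
  intro x y hxy hx
  rw [mem_compl] at hx ⊢
  intro hy
  exact hx (h y x hxy.symm hy)

section Line

variable {k l m r : ℕ}

/-- the line through a word with the letter `∗` -/
def wl (f : Fin l → Fin k ⊕ Fin m) (x : Fin m → Fin (k + 1)) (y : Fin r → Fin (k + 1)) :
    Fin l ⊕ Fin r → Option (Fin (k + 1)) :=
  Sum.elim (fun i => Sum.elim (fun c => some c.castSucc)
    (fun e => if x e = Fin.last k then none else some (x e)) (f i)) (fun j => some (y j))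

theorem wl_isLine {f : Fin l → Fin k ⊕ Fin m} (hf : IsSub f) {x : Fin m → Fin (k + 1)}
    (y : Fin r → Fin (k + 1)) (hx : ∃ e, x e = Fin.last k) : IsLine (wl f x y) := by
  obtain ⟨e, he⟩ := hx
  obtain ⟨i, hi⟩ := hf e
  refine ⟨Sum.inl i, ?_⟩
  simp [wl, hi, he]

theorem lp_cast (f : Fin l → Fin k ⊕ Fin m) (x : Fin m → Fin (k + 1))
    (y : Fin r → Fin (k + 1)) (a : Fin k) :
    lp (wl f x y) a.castSucc = Sum.elim (cs (sp f (rp x a))) y := by
  funext i
  rcases i with i | j
  · simp only [lp, wl, Sum.elim_inl, cs, sp]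
    rcases f i with c | e
    · simp
    · simp only [Sum.elim_inr]
      rw [rp_apply]
      by_cases h : x e = Fin.last k
      · simp [h]
      · simp [h]
  · simp [lp, wl]

theorem lp_last (f : Fin l → Fin k ⊕ Fin m) (x : Fin m → Fin (k + 1))
    (y : Fin r → Fin (k + 1)) :
    lp (wl f x y) (Fin.last k) = Sum.elim (sp (up f) x) y := by
  funext i
  rcases i with i | j
  · simp only [lp, wl, Sum.elim_inl, up, sp]
    rcases f i with c | e
    · simp
    · simp only [Sum.elim_inr, Sum.map_inr, id]
      by_cases h : x e = Fin.last k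
      · simp [h]
      · simp [h]
  · simp [lp, wl]

/-- the words without `∗` -/
theorem card_no_star (k m : ℕ) :
    (univ.filter fun x : Fin m → Fin (k + 1) => ∀ e, x e ≠ Fin.last k).card = k ^ m := by
  have h1 : (univ.filter fun x : Fin m → Fin (k + 1) => ∀ e, x e ≠ Fin.last k) =
      (univ : Finset (Fin m → Fin k)).image cs := by
    ext x
    simp only [mem_filter, mem_univ, true_and, mem_image]
    constructor
    · intro h
      refine ⟨fun e => (x e).castPred (h e), ?_⟩
      funext e
      exact Fin.castSucc_castPred _ _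
    · rintro ⟨z, rfl⟩ e
      exact (Fin.castSucc_lt_last _).ne
  rw [h1, card_image_of_injective]
  · simp
  · intro x x' h
    funext e
    exact Fin.castSucc_injective _ (congrFun h e)

end Line

/-- A_COR -/
theorem cor : CorStmt := by
  intro k l m r δ η θ γ f A hk hf hδγ hline hA hC
  have hk0 : (0 : ℝ) < k := by exact_mod_cast hk
  set R : ℝ := ((k : ℝ) + 1) ^ r with hR
  set K : ℝ := ((k : ℝ) + 1) ^ m with hK
  set κ : ℝ := ((k : ℝ) / (k + 1)) ^ m with hκ
  have hR0 : 0 < R := by positivity
  have hK0 : 0 < K := by positivity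
  have hkm : (k : ℝ) ^ m = κ * K := by
    rw [hκ, hK, ← mul_pow]
    congr 1
    field_simp
  set AA : (Fin r → Fin (k + 1)) → Finset (Fin m → Fin (k + 1)) :=
    fun y => univ.filter fun x => Sum.elim (sp (up f) x) y ∈ A with hAA
  set CC : Fin k → (Fin r → Fin (k + 1)) → Finset (Fin m → Fin (k + 1)) :=
    fun a y => univ.filter fun x => Sum.elim (cs (sp f (rp x a))) y ∈ A with hCC
  set C : (Fin r → Fin (k + 1)) → Finset (Fin m → Fin (k + 1)) :=
    fun y => univ.filter fun x => ∀ a : Fin k, Sum.elim (cs (sp f (rp x a))) y ∈ A with hCd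
  -- insensitivity
  have hins : ∀ a y, Ins a (CC a y) := by
    intro a y x x' hxx' hx
    simp only [hCC, mem_filter, mem_univ, true_and] at hx ⊢
    rw [← rp_eqv hxx']
    exact hx
  -- no star in the intersection
  have hno : ∀ y, ((AA y ∩ C y).card : ℝ) ≤ κ * K := by
    intro y
    rw [← hkm]
    have h1 : AA y ∩ C y ⊆ univ.filter fun x : Fin m → Fin (k + 1) => ∀ e, x e ≠ Fin.last k := by
      intro x hx
      simp only [hAA, hCd, mem_inter, mem_filter, mem_univ, true_and] at hx ⊢
      intro e he
      apply hline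
      refine ⟨wl f x y, wl_isLine hf y ⟨e, he⟩, ?_⟩
      intro b
      refine Fin.lastCases ?_ (fun a => ?_) b
      · rw [lp_last]
        exact hx.1
      · rw [lp_cast]
        exact hx.2 a
    have h2 := card_le_card h1
    rw [card_no_star] at h2
    exact_mod_cast h2
  have hcardX : ((univ : Finset (Fin m → Fin (k + 1))).card : ℝ) = K := by
    simp [hK]
  have hcardY : ((univ : Finset (Fin r → Fin (k + 1))).card : ℝ) = R := by
    simp [hR]
  -- first double counting
  have hsA : (δ - η) * R * K ≤ ∑ y, ((AA y).card : ℝ) := by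
    have h1 : ∑ y, ((AA y).card : ℝ) =
        ∑ x : Fin m → Fin (k + 1), ((univ.filter fun y : Fin r → Fin (k + 1) =>
          Sum.elim (sp (up f) x) y ∈ A).card : ℝ) := by
      simp only [hAA, card_filter, Nat.cast_sum, Nat.cast_ite, Nat.cast_one, Nat.cast_zero]
      exact sum_comm
    rw [h1]
    calc (δ - η) * R * K = ∑ _x : Fin m → Fin (k + 1), (δ - η) * R := by
          rw [sum_const, nsmul_eq_mul, hcardX]
          ring
      _ ≤ _ := sum_le_sum fun x _ => hA (sp (up f) x)
  -- second double counting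
  have hsC : θ * R * (K - κ * K) ≤ ∑ y, ((C y).card : ℝ) := by
    have h1 : ∑ y, ((C y).card : ℝ) =
        ∑ x : Fin m → Fin (k + 1), ((univ.filter fun y : Fin r → Fin (k + 1) =>
          ∀ a : Fin k, Sum.elim (cs (sp f (rp x a))) y ∈ A).card : ℝ) := by
      simp only [hCd, card_filter, Nat.cast_sum, Nat.cast_ite, Nat.cast_one, Nat.cast_zero]
      exact sum_comm
    rw [h1]
    have h2 : ((univ.filter fun x : Fin m → Fin (k + 1) =>
        ¬ ∀ e, x e ≠ Fin.last k).card : ℝ) = K - κ * K := by
      have h3 := card_filter_add_card_filter_not (s := (univ : Finset (Fin m → Fin (k + 1))))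
        (fun x => ∀ e, x e ≠ Fin.last k)
      rw [card_no_star] at h3
      have h4 : ((k ^ m : ℕ) : ℝ) + ((univ.filter fun x : Fin m → Fin (k + 1) =>
          ¬ ∀ e, x e ≠ Fin.last k).card : ℝ) = K := by
        rw [← hcardX]
        exact_mod_cast h3
      push_cast at h4
      rw [hkm] at h4
      linarith
    calc θ * R * (K - κ * K) = ∑ _x ∈ univ.filter (fun x : Fin m → Fin (k + 1) =>
          ¬ ∀ e, x e ≠ Fin.last k), θ * R := by
          rw [sum_const, nsmul_eq_mul, h2]
          ring
      _ ≤ ∑ x ∈ univ.filter (fun x : Fin m → Fin (k + 1) => ¬ ∀ e, x e ≠ Fin.last k),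
          ((univ.filter fun y : Fin r → Fin (k + 1) =>
            ∀ a : Fin k, Sum.elim (cs (sp f (rp x a))) y ∈ A).card : ℝ) := by
          refine sum_le_sum fun x hx => ?_
          simp only [mem_filter, mem_univ, true_and, not_forall, not_not] at hx
          exact hC x hx
      _ ≤ _ := sum_le_sum_of_subset_of_nonneg (filter_subset _ _) fun x _ _ => by positivity
  -- choice of `y`
  obtain ⟨y, -, hy⟩ : ∃ y ∈ (univ : Finset (Fin r → Fin (k + 1))),
      ((δ + γ) * θ * (1 - κ) - γ - η - κ) * K ≤
        ((AA y \ C y).card : ℝ) - (δ + γ) * (K - (C y).card) := by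
    apply exists_le_of_sum_le univ_nonempty
    have h1 : ∀ y ∈ (univ : Finset (Fin r → Fin (k + 1))),
        ((AA y).card : ℝ) - κ * K - (δ + γ) * K + (δ + γ) * (C y).card ≤
        ((AA y \ C y).card : ℝ) - (δ + γ) * (K - (C y).card) := by
      intro y _
      have h2 : ((AA y \ C y).card : ℝ) + ((AA y ∩ C y).card : ℝ) = (AA y).card := by
        exact_mod_cast card_sdiff_add_card_inter (AA y) (C y)
      have h3 := hno y
      nlinarith
    refine le_trans ?_ (sum_le_sum h1)
    have hconst : ∀ c : ℝ, ∑ _y : Fin r → Fin (k + 1), c = R * c := by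
      intro c
      rw [sum_const, nsmul_eq_mul, hcardY]
    rw [sum_add_distrib, sum_sub_distrib, sum_sub_distrib, hconst, hconst, hconst, ← mul_sum]
    have h4 := mul_le_mul_of_nonneg_left hsC hδγ
    have h5 : R * (((δ + γ) * θ * (1 - κ) - γ - η - κ) * K) =
        (δ - η) * R * K - R * (κ * K) - R * ((δ + γ) * K) + (δ + γ) * (θ * R * (K - κ * K)) := by
      ring
    rw [h5]
    linarith
  -- the sum over the complement
  set φ : (Fin m → Fin (k + 1)) → ℝ := fun x =>
    (if Sum.elim (sp (up f) x) y ∈ A then (1 : ℝ) else 0) - (δ + γ) with hφ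
  set EE : Fin k → Finset (Fin m → Fin (k + 1)) := fun a => univ.filter fun x =>
    x ∉ CC a y ∧ ∀ b < a, x ∈ CC b y with hEE
  have hsum : ((AA y \ C y).card : ℝ) - (δ + γ) * (K - (C y).card) = ∑ x ∈ (C y)ᶜ, φ x := by
    rw [hφ, sum_sub_distrib, sum_const, nsmul_eq_mul, card_compl, sum_boole]
    have h1 : ((C y)ᶜ.filter fun x => Sum.elim (sp (up f) x) y ∈ A) = AA y \ C y := by
      ext x
      simp only [hAA, mem_filter, mem_compl, mem_sdiff, mem_univ, true_and]
      tauto
    rw [h1, Nat.cast_sub (card_le_univ _)]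
    have h2 : (Fintype.card (Fin m → Fin (k + 1)) : ℝ) = K := by
      simp [hK]
    rw [h2]
    ring
  have hbU : (C y)ᶜ = univ.biUnion EE := by
    ext x
    simp only [hCd, hEE, hCC, mem_compl, mem_filter, mem_univ, true_and, mem_biUnion, not_forall]
    constructor
    · intro hx
      obtain ⟨a, ha, hmin⟩ := (wellFounded_lt : WellFounded ((· < ·) : Fin k → Fin k → Prop)).has_min
        {a | Sum.elim (cs (sp f (rp x a))) y ∉ A} hx
      refine ⟨a, ha, fun b hb => ?_⟩
      by_contra hcon
      exact hmin b hcon hb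
    · rintro ⟨a, ha, -⟩
      exact ⟨a, ha⟩
  have hdisj : ∀ a ∈ (univ : Finset (Fin k)), ∀ b ∈ (univ : Finset (Fin k)), a ≠ b →
      Disjoint (EE a) (EE b) := by
    intro a _ b _ hab
    rw [disjoint_left]
    intro x hxa hxb
    simp only [hEE, mem_filter, mem_univ, true_and] at hxa hxb
    rcases lt_or_gt_of_ne hab with h | h
    · exact hxa.1 (hxb.2 a h)
    · exact hxb.1 (hxa.2 b h)
  rw [hsum, hbU, sum_biUnion hdisj] at hy
  obtain ⟨a, -, ha⟩ : ∃ a ∈ (univ : Finset (Fin k)),
      ((δ + γ) * θ * (1 - κ) - γ - η - κ) * K / k ≤ ∑ x ∈ EE a, φ x := by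
    haveI : Nonempty (Fin k) := ⟨⟨0, hk⟩⟩
    apply exists_le_of_sum_le univ_nonempty
    rw [sum_const, nsmul_eq_mul, card_univ, Fintype.card_fin, mul_div_cancel₀ _ hk0.ne']
    exact hy
  refine ⟨y, a, fun b => if b = a then (CC a y)ᶜ else CC b y, EE a, ?_, ?_, ha⟩
  · intro b
    by_cases hb : b = a
    · simp only [hb, if_true]
      exact Ins.compl (hins a y)
    · simp only [hb, if_false]
      exact hins b y
  · intro x
    simp only [hEE, mem_filter, mem_univ, true_and]
    constructor
    · rintro ⟨h1, h2⟩ b hb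
      by_cases hba : b = a
      · simp only [hba, if_true, mem_compl]
        exact h1
      · simp only [hba, if_false]
        exact h2 b (lt_of_le_of_ne hb hba)
    · intro h
      refine ⟨?_, fun b hb => ?_⟩
      · have := h a le_rfl
        simpa using this
      · have := h b hb.le
        simpa [hb.ne] using this

end Pool.Agent.GT.H94
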