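import Pool.Agent.GT.StmtsA

/-!
Squad GT, row A_CRT: the density Hales-Jewett theorem, from `k` to `k + 1` letters.
-/

open Finset

namespace Pool.Agent.GT.H94

section Basic

theorem rp_apply' {ι : Type} {k : ℕ} (x : ι → Fin (k + 1)) (a : Fin k) (j : ι) :
    (rp x a j).castSucc = if x j = Fin.last k then a.castSucc else x j := by
  unfold rp
  by_cases h : x j = Fin.last k
  · rw [dif_pos h, if_pos h]
  · rw [dif_neg h, if_neg h, Fin.castSucc_castPred]

theorem rp_sp_up {ι η : Type} {k : ℕ} (f : ι → Fin k ⊕ η) (x : η → Fin (k + 1)) (a : Fin k) :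
    rp (sp (up f) x) a = sp f (rp x a) := by
  funext i
  apply Fin.castSucc_injective
  rw [rp_apply']
  unfold sp up
  rcases f i with c | e
  · simp [(Fin.castSucc_lt_last c).ne]
  · simp only [Sum.map_inr, Sum.elim_inr, id]
    rw [rp_apply']

/-- the line through a subspace -/
def ln {ι η α : Type} (F : ι → α ⊕ η) (v : η → Option α) : ι → Option α :=
  fun i => Sum.elim some v (F i)

theorem ln_isLine {ι η α : Type} {F : ι → α ⊕ η} (hF : IsSub F) {v : η → Option α}
    (hv : IsLine v) : IsLine (ln F v) := by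
  obtain ⟨e, he⟩ := hv
  obtain ⟨i, hi⟩ := hF e
  exact ⟨i, by simp [ln, hi, he]⟩

theorem lp_ln {ι η α : Type} (F : ι → α ⊕ η) (v : η → Option α) (a : α) :
    lp (ln F v) a = sp F (lp v a) := by
  funext i
  simp only [lp, ln, sp]
  rcases F i with c | e
  · rfl
  · rfl

theorem dh_mono {k : ℕ} {δ δ' : ℝ} {n : ℕ} (h : δ ≤ δ') (hd : DH k δ n) : DH k δ' n := by
  intro ι _ hn A hA
  exact hd ι hn A ((mul_le_mul_of_nonneg_right h (by positivity)).trans hA)

theorem dh_of_gt_one {k : ℕ} {δ : ℝ} (hk : 0 < k) (h : 1 < δ) : DH k δ 0 := by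
  intro ι _ _ A hA
  exfalso
  classical
  have h1 : (A.card : ℝ) ≤ (k : ℝ) ^ Fintype.card ι := by
    have := card_le_univ A
    rw [Fintype.card_fun, Fintype.card_fin] at this
    exact_mod_cast this
  have hk0 : (0 : ℝ) < (k : ℝ) ^ Fintype.card ι := by
    have : (0 : ℝ) < k := by exact_mod_cast hk
    positivity
  nlinarith

end Basic

section Fibre

variable {k l r : ℕ}

/-- the fibre -/
def fib (A : Finset (Fin l ⊕ Fin r → Fin (k + 1))) (x : Fin l → Fin (k + 1)) :
    Finset (Fin r → Fin (k + 1)) := univ.filter fun y => Sum.elim x y ∈ A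

theorem card_fib (A : Finset (Fin l ⊕ Fin r → Fin (k + 1))) :
    (A.card : ℝ) = ∑ x, ((fib A x).card : ℝ) := by
  have h1 : (A.card : ℝ) = ∑ w : Fin l ⊕ Fin r → Fin (k + 1), (if w ∈ A then (1 : ℝ) else 0) := by
    rw [sum_boole]
    congr 2
    ext w
    simp
  rw [h1]
  have h2 := Fintype.sum_equiv (Equiv.sumArrowEquivProdArrow (Fin l) (Fin r) (Fin (k + 1)))
    (fun w => (if w ∈ A then (1 : ℝ) else 0))
    (fun p => (if Sum.elim p.1 p.2 ∈ A then (1 : ℝ) else 0)) (by
      intro w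
      have : Sum.elim ((Equiv.sumArrowEquivProdArrow (Fin l) (Fin r) (Fin (k + 1))) w).1
          ((Equiv.sumArrowEquivProdArrow (Fin l) (Fin r) (Fin (k + 1))) w).2 = w := by
        funext i
        rcases i with i | i <;> rfl
      rw [this])
  rw [h2, Fintype.sum_prod_type]
  refine sum_congr rfl fun x _ => ?_
  unfold fib
  rw [sum_boole]

/-- a line in a fibre is a line in the set -/
theorem line_of_fib {A : Finset (Fin l ⊕ Fin r → Fin (k + 1))} {x : Fin l → Fin (k + 1)}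
    (h : ∃ w : Fin r → Option (Fin (k + 1)), IsLine w ∧ ∀ a, lp w a ∈ fib A x) :
    ∃ w : Fin l ⊕ Fin r → Option (Fin (k + 1)), IsLine w ∧ ∀ a, lp w a ∈ A := by
  obtain ⟨w, ⟨j, hj⟩, hw⟩ := h
  refine ⟨Sum.elim (fun i => some (x i)) w, ⟨Sum.inr j, hj⟩, fun a => ?_⟩
  have h1 := hw a
  unfold fib at h1
  rw [mem_filter] at h1
  have h2 : lp (Sum.elim (fun i => some (x i)) w) a = Sum.elim x (lp w a) := by
    funext i
    rcases i with i | i <;> simp [lp]
  rw [h2]
  exact h1.2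

end Fibre

/-- the main step -/
theorem crt_step (prb : PrbStmt) (grl : GrlStmt) (cor : CorStmt) {k : ℕ} (hk : 0 < k)
    (hPA : PA k) (hD : DHJ k) {δ : ℝ} (hδ0 : 0 < δ) (hδ1 : δ ≤ 1)
    (hP : ∀ δ', δ < δ' → ∃ n, DH (k + 1) δ' n) :
    ∃ (l r : ℕ) (ε : ℝ), 0 < ε ∧ ε ≤ δ ∧ ∀ A : Finset (Fin l ⊕ Fin r → Fin (k + 1)),
      (δ - ε) * ((k : ℝ) + 1) ^ (l + r) ≤ A.card →
      ∃ w : Fin l ⊕ Fin r → Option (Fin (k + 1)), IsLine w ∧ ∀ a, lp w a ∈ A := by
  classical
  have hk0 : (0 : ℝ) < k := by exact_mod_cast hk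
  -- (1)
  obtain ⟨n₀, θ', hθ', hprb⟩ := prb k hk hD (δ / 2) (by positivity)
  set θ : ℝ := min θ' 1 with hθd
  have hθ0 : 0 < θ := lt_min hθ' one_pos
  have hθ1 : θ ≤ 1 := min_le_right _ _
  have hθ'' : θ ≤ θ' := min_le_left _ _
  set γ : ℝ := δ * θ / 8 with hγ
  have hδθ : 0 < δ * θ := by positivity
  have hδθ1 : δ * θ ≤ 1 := by nlinarith
  have hδθ2 : δ * θ ≤ δ := by nlinarith
  have hγ0 : 0 < γ := by positivity
  -- (2)
  obtain ⟨mm, hmm⟩ := hP (δ + γ) (by linarith)
  -- (3)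
  have hpa : ∀ a : Fin k, ∃ n : ℕ, ∀ (ι : Type) [Fintype ι], n ≤ Fintype.card ι →
      ∀ φ : (ι → Fin (k + 1)) → ℝ, (∀ x, φ x ≤ 1) →
      (∀ f : ι → Fin (k + 1) ⊕ Fin mm, IsSub f → ∑ y, φ (sp f y) ≤ 0) →
      ∀ (D : Fin k → Finset (ι → Fin (k + 1))) (E : Finset (ι → Fin (k + 1))),
        (∀ b ∈ Finset.Iic a, Ins b (D b)) → (∀ x, x ∈ E ↔ ∀ b ∈ Finset.Iic a, x ∈ D b) →
        ∑ x ∈ E, φ x ≤ δ * θ / (4 * k) * ((k : ℝ) + 1) ^ Fintype.card ι :=
    fun a => hPA (Finset.Iic a) mm (δ * θ / (4 * k)) (by positivity)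
  choose na hna using hpa
  obtain ⟨mκ, hmκ⟩ := exists_pow_lt_of_lt_one (by positivity : (0 : ℝ) < δ * θ / 16)
    (show ((k : ℝ) / (k + 1)) < 1 by
      rw [div_lt_one (by positivity)]
      linarith)
  set m₁ : ℕ := max n₀ (max mκ (univ.sup na)) with hm₁
  have hm₁0 : n₀ ≤ m₁ := le_max_left _ _
  have hm₁κ : mκ ≤ m₁ := (le_max_left _ _).trans (le_max_right _ _)
  have hm₁a : ∀ a, na a ≤ m₁ := fun a =>
    (le_sup (f := na) (mem_univ a)).trans ((le_max_right _ _).trans (le_max_right _ _))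
  set κ : ℝ := ((k : ℝ) / (k + 1)) ^ m₁ with hκ
  have hκ0 : 0 ≤ κ := by positivity
  have hκ1 : κ ≤ δ * θ / 16 := by
    refine le_trans ?_ hmκ.le
    apply pow_le_pow_of_le_one (by positivity) _ hm₁κ
    rw [div_le_one (by positivity)]
    linarith
  -- (4), (5), (6)
  obtain ⟨l, hl⟩ := grl k m₁ hk
  set η : ℝ := δ * θ / 16 with hη
  have hη0 : 0 < η := by positivity
  set L : ℝ := ((k : ℝ) + 1) ^ l with hL
  have hL1 : 1 ≤ L := one_le_pow₀ (by linarith)
  set ε : ℝ := η / (2 * L) with hε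
  have hε0 : 0 < ε := by positivity
  have hεL : 2 * L * ε = η := by
    rw [hε]
    field_simp
  have hεη : ε ≤ η := by nlinarith
  obtain ⟨r, hr⟩ := hP (δ + ε) (by linarith)
  refine ⟨l, r, ε, hε0, by linarith, ?_⟩
  intro A hA
  by_contra hline
  set R : ℝ := ((k : ℝ) + 1) ^ r with hR
  have hR0 : 0 < R := by positivity
  -- the fibres
  have hfu : ∀ x, ((fib A x).card : ℝ) ≤ (δ + ε) * R := by
    intro x
    by_contra hcon
    push Not at hcon
    apply hline
    apply line_of_fib (x := x)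
    apply hr (Fin r) (by simp)
    rw [Fintype.card_fin]
    push_cast
    exact hcon.le
  have hfl : ∀ x, (δ - η) * R ≤ ((fib A x).card : ℝ) := by
    intro x
    have h1 := card_fib A
    rw [← add_sum_erase univ _ (mem_univ x)] at h1
    have h2 : ∑ x' ∈ univ.erase x, ((fib A x').card : ℝ) ≤ (L - 1) * ((δ + ε) * R) := by
      calc ∑ x' ∈ univ.erase x, ((fib A x').card : ℝ) ≤
            ∑ _x' ∈ univ.erase x, (δ + ε) * R := sum_le_sum fun x' _ => hfu x'
        _ = (L - 1) * ((δ + ε) * R) := by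
            rw [sum_const, nsmul_eq_mul, card_erase_of_mem (mem_univ x), card_univ,
              Fintype.card_fun, Fintype.card_fin, Fintype.card_fin,
              Nat.cast_sub (Nat.one_le_iff_ne_zero.mpr (by positivity))]
            push_cast
            rfl
    have h3 : (δ - ε) * (L * R) ≤ A.card := by
      rw [hL, hR, ← pow_add]
      exact hA
    have h4 : (δ - η) * R = (δ - ε) * (L * R) - (L - 1) * ((δ + ε) * R) - ε * R := by
      have : η * R = 2 * L * ε * R := by rw [hεL]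
      linear_combination -this
    have h5 : 0 < ε * R := by positivity
    linarith
  -- the colouring
  set c : (Fin l → Fin (k + 1)) → Bool := fun x => decide (θ * R ≤
    ((univ.filter fun y : Fin r → Fin (k + 1) =>
      ∀ a : Fin k, Sum.elim (cs (rp x a)) y ∈ A).card : ℝ)) with hc
  obtain ⟨f, hf, b, hb⟩ := hl c
  have hcardY : (Fintype.card (Fin r → Fin (k + 1)) : ℝ) = R := by
    simp [hR]
  obtain ⟨w, hw, B, hB, hwB⟩ := hprb m₁ hm₁0 (Fin r → Fin (k + 1))
    (fun t => fib A (cs (sp f t))) (by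
      intro t
      rw [hcardY]
      refine le_trans ?_ (hfl _)
      apply mul_le_mul_of_nonneg_right _ hR0.le
      linarith)
  rw [hcardY] at hB
  -- the colour is `true`
  have hbt : b = true := by
    set x : Fin m₁ → Fin (k + 1) := fun i => (w i).elim (Fin.last k) Fin.castSucc with hx
    have hrx : ∀ a, rp x a = lp w a := by
      intro a
      funext i
      apply Fin.castSucc_injective
      rw [rp_apply']
      simp only [hx, lp]
      rcases w i with _ | v
      · simp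
      · simp [(Fin.castSucc_lt_last v).ne]
    have hxe : ∃ e, x e = Fin.last k := by
      obtain ⟨e, he⟩ := hw
      exact ⟨e, by simp [hx, he]⟩
    rw [← hb x hxe, hc]
    simp only [decide_eq_true_eq]
    calc θ * R ≤ θ' * R := mul_le_mul_of_nonneg_right hθ'' hR0.le
      _ ≤ B.card := hB
      _ ≤ _ := by
        have : B ⊆ univ.filter fun y : Fin r → Fin (k + 1) =>
            ∀ a : Fin k, Sum.elim (cs (rp (sp (up f) x) a)) y ∈ A := by
          intro y hy
          rw [mem_filter]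
          refine ⟨mem_univ _, fun a => ?_⟩
          rw [rp_sp_up, hrx]
          have := hwB y hy a
          unfold fib at this
          rw [mem_filter] at this
          exact this.2
        exact_mod_cast card_le_card this
  have hstar : ∀ x : Fin m₁ → Fin (k + 1), (∃ e, x e = Fin.last k) → θ * ((k : ℝ) + 1) ^ r ≤
      (univ.filter fun y : Fin r → Fin (k + 1) =>
        ∀ a : Fin k, Sum.elim (cs (sp f (rp x a))) y ∈ A).card := by
    intro x hx
    have h1 := hb x hx
    rw [hbt, hc] at h1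
    simp only [decide_eq_true_eq, rp_sp_up] at h1
    exact h1
  obtain ⟨y, a, D, E, hDi, hE, hineq⟩ := cor k l m₁ r δ η θ γ f A hk hf (by linarith) hline
    (fun x => hfl x) hstar
  -- the partition lemma
  set φ : (Fin m₁ → Fin (k + 1)) → ℝ := fun x =>
    (if Sum.elim (sp (up f) x) y ∈ A then (1 : ℝ) else 0) - (δ + γ) with hφ
  have hφ1 : ∀ x, φ x ≤ 1 := by
    intro x
    simp only [hφ]
    split_ifs <;> linarith
  have hex : ∃ g : Fin m₁ → Fin (k + 1) ⊕ Fin mm, IsSub g ∧ 0 < ∑ z, φ (sp g z) := by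
    by_contra hcon
    push Not at hcon
    have h1 := hna a (Fin m₁) (by simpa using hm₁a a) φ hφ1 hcon D E (fun b _ => hDi b)
      (fun x => by simpa using hE x)
    rw [Fintype.card_fin] at h1
    have h2 : δ * θ / 2 ≤ (δ + γ) * θ * (1 - κ) - γ - η - κ := by
      have h3 : δ * θ * (15 / 16) ≤ (δ + γ) * θ * (1 - κ) := by
        have h4 : κ ≤ 1 / 16 := by linarith
        have h5 : δ * θ ≤ (δ + γ) * θ := by nlinarith
        have h6 : (15 / 16 : ℝ) ≤ 1 - κ := by linarith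
        calc δ * θ * (15 / 16) ≤ (δ + γ) * θ * (15 / 16) :=
              mul_le_mul_of_nonneg_right h5 (by norm_num)
          _ ≤ (δ + γ) * θ * (1 - κ) := mul_le_mul_of_nonneg_left h6 (by positivity)
      linarith
    have hK0 : (0 : ℝ) < ((k : ℝ) + 1) ^ m₁ := by positivity
    have h7 : δ * θ / 2 * ((k : ℝ) + 1) ^ m₁ / k ≤ δ * θ / (4 * k) * ((k : ℝ) + 1) ^ m₁ := by
      refine le_trans ?_ (hineq.trans h1)
      apply div_le_div_of_nonneg_right _ hk0.le
      exact mul_le_mul_of_nonneg_right h2 hK0.le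
    have h8 : δ * θ / 2 * ((k : ℝ) + 1) ^ m₁ / k = 2 * (δ * θ / (4 * k) * ((k : ℝ) + 1) ^ m₁) := by
      field_simp
      ring
    have h9 : 0 < δ * θ / (4 * k) * ((k : ℝ) + 1) ^ m₁ := by positivity
    linarith
  obtain ⟨g, hg, hgs⟩ := hex
  -- the line
  obtain ⟨v, hv, hvA⟩ := hmm (Fin mm) (by simp)
    (univ.filter fun z : Fin mm → Fin (k + 1) => Sum.elim (sp (up f) (sp g z)) y ∈ A) (by
      rw [Fintype.card_fin]
      simp only [hφ] at hgs
      rw [sum_sub_distrib, sum_boole, sum_const, nsmul_eq_mul, card_univ, Fintype.card_fun,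
        Fintype.card_fin, Fintype.card_fin] at hgs
      push_cast at hgs ⊢
      linarith)
  apply hline
  refine ⟨Sum.elim (ln (cmp (up f) g) v) (fun j => some (y j)), ?_, fun b => ?_⟩
  · obtain ⟨i, hi⟩ := ln_isLine (hf.up.cmp hg) hv
    exact ⟨Sum.inl i, hi⟩
  · have h1 := hvA b
    rw [mem_filter] at h1
    have h2 : lp (Sum.elim (ln (cmp (up f) g) v) (fun j => some (y j))) b =
        Sum.elim (sp (up f) (sp g (lp v b))) y := by
      rw [← sp_cmp, ← lp_ln]
      funext i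
      rcases i with i | i <;> simp [lp]
    rw [h2]
    exact h1.2

/-- A_CRT -/
theorem crt (mon : MonStmt) (prb : PrbStmt) (grl : GrlStmt) (cor : CorStmt) : CrtStmt := by
  intro k hk hPA hD
  by_contra hcon
  unfold DHJ at hcon
  push Not at hcon
  obtain ⟨δ₀, hδ₀, hnot⟩ := hcon
  set S : Set ℝ := {δ | 0 ≤ δ ∧ ∃ n, DH (k + 1) δ n} with hS
  have hlow : ∀ δ ∈ S, δ₀ ≤ δ := by
    rintro δ ⟨-, n, hn⟩
    by_contra hlt
    push Not at hlt
    exact hnot n (dh_mono hlt.le hn)
  have hbd : BddBelow S := ⟨δ₀, hlow⟩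
  have hgt : ∀ δ, 1 < δ → δ ∈ S := fun δ h => ⟨by linarith, 0, dh_of_gt_one (Nat.succ_pos k) h⟩
  have hne : S.Nonempty := ⟨2, hgt 2 (by norm_num)⟩
  set δ : ℝ := sInf S with hδ
  have hδ0 : 0 < δ := lt_of_lt_of_le hδ₀ (le_csInf hne hlow)
  have hδ1 : δ ≤ 1 := by
    apply le_of_forall_pos_le_add
    intro e he
    exact csInf_le hbd (hgt (1 + e) (by linarith))
  have hP : ∀ δ', δ < δ' → ∃ n, DH (k + 1) δ' n := by
    intro δ' hδ'
    obtain ⟨d, ⟨-, n, hn⟩, hd⟩ := exists_lt_of_csInf_lt hne hδ'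
    exact ⟨n, dh_mono hd.le hn⟩
  obtain ⟨l, r, ε, hε, hεδ, hmain⟩ := crt_step prb grl cor hk hPA hD hδ0 hδ1 hP
  have hmem : δ - ε ∈ S := by
    refine ⟨by linarith, l + r, ?_⟩
    apply mon (k + 1) (l + r) (δ - ε) (Nat.succ_pos k)
    intro A hA
    have e := finSumFinEquiv (m := l) (n := r)
    obtain ⟨w, ⟨i, hi⟩, hwA⟩ := hmain
      (A.map (Equiv.arrowCongr e.symm (Equiv.refl (Fin (k + 1)))).toEmbedding) (by
        rw [card_map]
        push_cast at hA
        exact hA)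
    refine ⟨w ∘ e.symm, ⟨e i, by simp [hi]⟩, fun a => ?_⟩
    have h1 := hwA a
    rw [mem_map] at h1
    obtain ⟨x, hx, hxe⟩ := h1
    have h2 : x = lp (w ∘ e.symm) a := by
      funext j
      have h3 := congrFun hxe (e.symm j)
      simp only [Equiv.coe_toEmbedding, Equiv.arrowCongr_apply, Equiv.coe_refl, Equiv.symm_symm,
        Function.comp, id, Equiv.apply_symm_apply] at h3
      rw [h3]
      rfl
    rw [← h2]
    exact hx
  have := csInf_le hbd hmem
  linarith

end Pool.Agent.GT.H94
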