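import Pool.Agent.GT.StmtsE

/-!
# Squad GT, row E_FIN: the final theorem of block E
-/

set_option autoImplicit false

namespace Pool.Agent.GT.OF.H94

open Polynomial Pool.Agent.NJ Pool.Agent.GT.D

/-- `A` is not zero if the forms are not zero -/
theorem a_ne {ι : Type} [Fintype ι] [DecidableEq ι] (D : LD ι) {u v : ℤ}
    (h : ∀ l, D.L l u v ≠ 0) (i : Fin 3) : D.A i u v ≠ 0 := by
  unfold LD.A
  refine mul_ne_zero (D.k0 i) (Finset.prod_ne_zero_iff.2 fun l _ => ?_)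
  by_cases hl : D.bl l = i
  · rw [if_pos hl]; exact pow_ne_zero _ (h l)
  · rw [if_neg hl]; exact one_ne_zero

theorem f_ne {ι : Type} [Fintype ι] [DecidableEq ι] (D : LD ι) {u v : ℤ}
    (h : ∀ l, D.L l u v ≠ 0) : D.F u v ≠ 0 := by
  unfold LD.F
  exact mul_ne_zero D.g0 (Finset.prod_ne_zero_iff.2 fun l _ => pow_ne_zero _ (h l))

theorem a_sum {ι : Type} [Fintype ι] [DecidableEq ι] (D : LD ι) (u v : ℤ) :
    D.A 0 u v + D.A 1 u v + D.A 2 u v = 0 := by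
  have h := D.sum u v
  rw [Fin.sum_univ_three] at h
  exact h

theorem kfa_sum {ι : Type} [Fintype ι] [DecidableEq ι] (D : LD ι) (k u v : ℤ) :
    k * D.F u v * D.A 0 u v + k * D.F u v * D.A 1 u v + k * D.F u v * D.A 2 u v = 0 := by
  rw [← mul_add, ← mul_add, a_sum, mul_zero]

theorem ne3 {e : Fin 3 → ℚ} (h : ∀ i : Fin 3, e (i + 1) - e (i + 2) ≠ 0) :
    ∀ i j, i ≠ j → e i ≠ e j := by
  have h0 : e 1 ≠ e 2 := sub_ne_zero.1 (h 0)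
  have h1 : e 2 ≠ e 0 := sub_ne_zero.1 (h 1)
  have h2 : e 0 ≠ e 1 := sub_ne_zero.1 (h 2)
  intro i j hij
  fin_cases i <;> fin_cases j
  · exact absurd rfl hij
  · exact h2
  · exact h1.symm
  · exact h2.symm
  · exact absurd rfl hij
  · exact h0
  · exact h1
  · exact h0.symm
  · exact absurd rfl hij

theorem fib_Δ (E : WeierstrassCurve ℚ[X]) (t : ℚ) : (fib E t).Δ = E.Δ.eval t := by
  unfold fib
  rw [WeierstrassCurve.map_Δ]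
  rfl

theorem e_fin (frx : FrxStmt) (lde : LdeStmt) (twf : TwfStmt) (slt : SltStmt) (grp : GrpStmt)
    (hgt : HgtStmt) (tbd : TbdStmt) (evh : EvhStmt) (rkn : RknStmt) : OF.MainStmt := by
  intro hGT E hΔ hni h2 hb t₀ ht₀
  obtain ⟨ι, i1, i2, D, hD⟩ := frx E hΔ hni h2 hb
  have hv₀ : (t₀.den : ℤ) ≠ 0 := Int.natCast_ne_zero.mpr t₀.den_nz
  have ht : ((t₀.num : ℤ) : ℚ) / ((t₀.den : ℤ) : ℚ) = t₀ := by
    rw [Int.cast_natCast]; exact Rat.num_div_den t₀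
  obtain ⟨hL0, ε₀, lam₀, hlam₀, hR₀, hd₀⟩ := hD t₀.num t₀.den hv₀ (by rw [ht]; exact ht₀)
  rw [ht] at hR₀
  obtain ⟨S, hS⟩ := lde hGT ι D t₀.num t₀.den hL0
  refine ⟨S, ?_⟩
  intro k hk hr hsel
  have hk0 : k ≠ 0 := hk.ne_zero
  obtain ⟨hΔt, htw⟩ := twf E k hk0
  have hΔt := hΔt hΔ
  have hdif : ∀ (u v : ℤ) (ε : Fin 3 → ℚ) (lam : ℚ),
      (∀ i : Fin 3, ε (i + 1) - ε (i + 2) = lam ^ 2 * ((D.F u v * D.A i u v : ℤ) : ℚ)) →
      ∀ i : Fin 3, (fun i => 4 * (k : ℚ) * ε i) (i + 1) - (fun i => 4 * (k : ℚ) * ε i) (i + 2) =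
        (2 * lam) ^ 2 * (((fun i => k * D.F u v * D.A i u v) i : ℤ) : ℚ) := by
    intro u v ε lam h i
    have h1 := h i
    show 4 * (k : ℚ) * ε (i + 1) - 4 * (k : ℚ) * ε (i + 2) = _
    rw [← mul_sub, h1]
    push_cast
    ring
  have hZ : Zsel (fun i => k * D.F t₀.num t₀.den * D.A i t₀.num t₀.den) :=
    slt (fun i => 4 * (k : ℚ) * ε₀ i) (2 * lam₀) _ (mul_ne_zero two_ne_zero hlam₀)
      (kfa_sum D k _ _) (hdif _ _ ε₀ lam₀ hd₀)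
      (hsel _ ((htw t₀).2 _ _ _ hR₀))
  obtain ⟨q₁, q₂, hq1, hq2, hq12, hq22, hq, hinf⟩ := hS k hk hr hZ
  obtain ⟨B, hB, hTB⟩ := tbd q₁ q₂ hq1 hq2 hq12 hq22 hq
  have hfin : {t : ℚ | (fib E t).Δ = 0}.Finite := by
    refine E.Δ.roots.toFinset.finite_toSet.subset ?_
    intro t ht
    rw [Finset.mem_coe, Multiset.mem_toFinset, mem_roots hΔ, IsRoot.def, ← fib_Δ]
    exact ht
  have hgood := hinf.sdiff hfin
  have hall : ∀ t ∈ {t : ℚ | ∃ u v : ℤ, v ≠ 0 ∧ t = (u : ℚ) / (v : ℚ) ∧ (∀ l, D.L l u v ≠ 0) ∧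
      (∀ i, ¬ (q₁ : ℤ) ∣ k * D.F u v * D.A i u v ∧ ¬ (q₂ : ℤ) ∣ k * D.F u v * D.A i u v) ∧
      ∀ x w : ℤ, Tri (rt 1 (fun i => k * D.F u v * D.A i u v)) x w →
        InTor (rt 1 (fun i => k * D.F u v * D.A i u v)) x w} \ {t : ℚ | (fib E t).Δ = 0},
      (fib (twist E k) t).Δ ≠ 0 ∧ Tors (fib (twist E k) t) ∧ Expo (fib (twist E k) t) B := by
    rintro t ⟨⟨u, v, hv, rfl, hL, hqq, hTI⟩, hΔ0⟩
    have hΔ0 : (fib E ((u : ℚ) / (v : ℚ))).Δ ≠ 0 := hΔ0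
    obtain ⟨-, ε, lam, hlam, hR, hd⟩ := hD u v hv hΔ0
    have hl2 : 2 * lam ≠ 0 := mul_ne_zero two_ne_zero hlam
    have hD0 : ∀ i, k * D.F u v * D.A i u v ≠ 0 := fun i =>
      mul_ne_zero (mul_ne_zero hk0 (f_ne D hL)) (a_ne D hL i)
    have hscl : Scl (fib (twist E k) ((u : ℚ) / (v : ℚ))) (fun i => 4 * (k : ℚ) * ε i) (2 * lam)
        (fun i => k * D.F u v * D.A i u v) :=
      ⟨(htw _).2 _ _ _ hR, hl2, hD0, kfa_sum D k _ _, hdif _ _ ε lam hd⟩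
    have hrt : Rt3 (fib (twist E k) ((u : ℚ) / (v : ℚ))) (fun i => 4 * (k : ℚ) * ε i) := by
      refine ⟨two_ne_zero, hscl.rts, ne3 fun i => ?_⟩
      rw [hscl.dif i]
      exact mul_ne_zero (pow_ne_zero _ hl2) (Int.cast_ne_zero.2 (hD0 i))
    have hT := hgt _ _ hrt (grp _ _ _ _ hscl hTI)
    refine ⟨?_, hT, hTB _ _ _ _ hscl hqq hT⟩
    rw [(htw _).1]
    exact mul_ne_zero (mul_ne_zero (by norm_num) (pow_ne_zero _ (Int.cast_ne_zero.2 hk0))) hΔ0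
  have hE : Expo (gen (twist E k)) B := evh _ B hΔt
    (hgood.mono fun t ht => ⟨(hall t ht).1, (hall t ht).2.2⟩)
  have hG : rk (gen (twist E k)) = 0 := rkn _ _ fun Q => ⟨B, hB, hE Q⟩
  refine ⟨hG, hgood.mono fun t ht => ⟨(hall t ht).1, ?_⟩⟩
  rw [hG]
  exact rkn _ _ (hall t ht).2.1

end Pool.Agent.GT.OF.H94
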