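import Pool.Agent.GT.StmtsE
import Pool.Agent.GT.StmtsD

/-!
# Squad GT, row E_FRX: from curves to linear forms
-/

set_option autoImplicit false

namespace Pool.Agent.GT.OF.H94

open Polynomial Pool.Agent.NJ Pool.Agent.GT.D

/-- the square of a linear factor does not divide a product of different linear factors -/
theorem sq_ndvd (R : Finset ℚ) (t : ℚ) :
    ¬ (X - C t : ℚ[X]) * (X - C t) ∣ ∏ c ∈ R, (X - C c) := by
  intro h
  have h1 : (∏ c ∈ R, (X - C c : ℚ[X])).Separable :=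
    (separable_prod_X_sub_C_iff' (f := fun c : ℚ => c)).2 fun x _ y _ h => h
  exact not_isUnit_X_sub_C t (h1.squarefree _ h)

theorem ratBad_prod {κ : ℚ} (hκ : κ ≠ 0) (R : Finset ℚ) {δ x y z : ℚ[X]} (h : RatBad δ x y z) :
    RatBad (C κ * ∏ c ∈ R, (X - C c)) x y z := by
  intro t ht
  rcases ht with h1 | h1
  · exact h t (Or.inl h1)
  have h2 : ((C κ * ∏ c ∈ R, (X - C c : ℚ[X])).map (algebraMap ℚ ℂ)).eval t = 0 := by
    by_contra hne
    rw [rootMultiplicity_eq_zero hne] at h1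
    exact absurd h1 (by decide)
  rw [Polynomial.map_mul, Polynomial.map_prod, eval_mul, eval_prod, map_C, eval_C] at h2
  have h3 := (mul_eq_zero.1 h2).resolve_left
    ((map_ne_zero_iff _ (algebraMap ℚ ℂ).injective).2 hκ)
  obtain ⟨c, _, hc⟩ := Finset.prod_eq_zero_iff.1 h3
  refine ⟨c, ?_⟩
  rw [Polynomial.map_sub, map_X, map_C, eval_sub, eval_X, eval_C] at hc
  exact sub_eq_zero.1 hc

theorem e_frx (plr : PlrStmt) (frz : FrzStmt) (bdr : BdrStmt) (sqp : SqpStmt) (pol : NJ.POLStmt)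
    (nis : NJ.NISStmt) : FrxStmt := by
  intro E hΔ hni h2 hb
  obtain ⟨f, hR, hne, hRt, hft⟩ := plr E hΔ h2
  have hinj : Function.Injective (algebraMap ℚ[X] (RatFunc ℚ)) :=
    IsFractionRing.injective ℚ[X] (RatFunc ℚ)
  obtain ⟨w, δ, x, y, z, hD⟩ := pol _ _ _ (fun h => hne 0 1 (by decide) (hinj h))
    (fun h => hne 1 2 (by decide) (hinj h)) (fun h => hne 2 0 (by decide) (hinj h))
  have hn := nis E hΔ hni _ _ _ w δ x y z hR hD
  have hr := bdr E hΔ hb _ _ _ w δ x y z hR hD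
  obtain ⟨κ, s, R, hκ, hs, hδ⟩ := sqp δ hD.d0 (fun t ht => hr t (Or.inr ht))
  obtain ⟨ι, i1, i2, D, hF⟩ := frz κ R x y z hκ hD.x0 hD.y0 hD.z0 hD.sum hD.cop hn
    (ratBad_prod hκ R hr)
  refine ⟨ι, i1, i2, D, ?_⟩
  intro p q hq hΔt
  obtain ⟨t, ht⟩ : ∃ t : ℚ, t = (p : ℚ) / q := ⟨_, rfl⟩
  have hF := hF p q hq
  rw [← ht] at hΔt hF ⊢
  obtain ⟨P, hP⟩ : ∃ P : ℚ[X], P = ∏ c ∈ R, (X - C c) := ⟨_, rfl⟩
  rw [← hP] at hF hδ
  -- the numerator and the denominator
  obtain ⟨a, b, hb0, hcop, hab⟩ : ∃ a b : ℚ[X], b ≠ 0 ∧ IsCoprime a b ∧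
      w * algebraMap ℚ[X] (RatFunc ℚ) s * algebraMap ℚ[X] (RatFunc ℚ) b =
        algebraMap ℚ[X] (RatFunc ℚ) a := by
    refine ⟨(w * algebraMap ℚ[X] (RatFunc ℚ) s).num, (w * algebraMap ℚ[X] (RatFunc ℚ) s).denom,
      RatFunc.denom_ne_zero _, RatFunc.isCoprime_num_denom _, ?_⟩
    have h1 := RatFunc.num_div_denom (w * algebraMap ℚ[X] (RatFunc ℚ) s)
    have h2 : algebraMap ℚ[X] (RatFunc ℚ) (w * algebraMap ℚ[X] (RatFunc ℚ) s).denom ≠ 0 :=
      (map_ne_zero_iff _ hinj).2 (RatFunc.denom_ne_zero _)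
    rw [div_eq_iff h2] at h1
    exact h1.symm
  have key : ∀ (g g' r : ℚ[X]), algebraMap ℚ[X] (RatFunc ℚ) g - algebraMap ℚ[X] (RatFunc ℚ) g' =
      w ^ 2 * algebraMap ℚ[X] (RatFunc ℚ) (δ * r) → b ^ 2 * (g - g') = a ^ 2 * (C κ * P * r) := by
    intro g g' r h
    apply hinj
    rw [map_mul, map_sub, h, hδ]
    simp only [map_mul, map_pow, ← hab]
    ring
  have hx := key _ _ _ hD.h12
  have hy := key _ _ _ hD.h23
  have hz := key _ _ _ hD.h31
  have hbt : b.eval t ≠ 0 := by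
    intro h0
    have hXb : (X - C t) ∣ b := dvd_iff_isRoot.2 h0
    have hXa : IsCoprime ((X - C t) * (X - C t)) (a ^ 2 * C κ) := by
      have h1 : IsCoprime (X - C t) a := by
        obtain ⟨c, hc⟩ := hXb
        exact (IsCoprime.of_mul_right_left (by rw [hc] at hcop; exact hcop)).symm
      have h2 : IsCoprime (X - C t) (a ^ 2) := h1.pow_right
      have h3 : IsCoprime ((X - C t) * (X - C t)) (a ^ 2) := h2.mul_left h2
      have h4 : IsCoprime ((X - C t) * (X - C t)) (C κ : ℚ[X]) :=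
        ⟨0, C κ⁻¹, by rw [zero_mul, zero_add, ← C_mul, inv_mul_cancel₀ hκ, C_1]⟩
      exact h3.mul_right h4
    have hdv : ∀ g r : ℚ[X], b ^ 2 * g = a ^ 2 * (C κ * P * r) → (X - C t) * (X - C t) ∣ P * r := by
      intro g r h
      apply hXa.dvd_of_dvd_mul_left
      have h1 : (X - C t) * (X - C t) ∣ b ^ 2 * g :=
        Dvd.dvd.mul_right (by rw [pow_two]; exact mul_dvd_mul hXb hXb) g
      rw [h] at h1
      have e : a ^ 2 * C κ * (P * r) = a ^ 2 * (C κ * P * r) := by ring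
      rw [e]
      exact h1
    obtain ⟨c, d, hcd⟩ := hD.cop
    have h3 : (X - C t) * (X - C t) ∣ P := by
      have h4 : P = c * (P * x) + d * (P * y) := by
        calc P = P * (c * x + d * y) := by rw [hcd, mul_one]
          _ = _ := by ring
      rw [h4]
      exact dvd_add (Dvd.dvd.mul_left (hdv _ _ hx) c) (Dvd.dvd.mul_left (hdv _ _ hy) d)
    rw [hP] at h3
    exact sq_ndvd R t h3
  have ev : ∀ (g g' r : ℚ[X]), b ^ 2 * (g - g') = a ^ 2 * (C κ * P * r) →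
      (b.eval t) ^ 2 * (g.eval t - g'.eval t) = (a.eval t) ^ 2 * ((C κ * P * r).eval t) := by
    intro g g' r h
    have := congrArg (eval t) h
    rwa [eval_mul, eval_pow, eval_sub, eval_mul, eval_pow] at this
  have ex := ev _ _ _ hx
  have ey := ev _ _ _ hy
  have ez := ev _ _ _ hz
  have hne2 := hft t hΔt
  have nx : (b.eval t) ^ 2 * ((f 0).eval t - (f 1).eval t) ≠ 0 :=
    mul_ne_zero (pow_ne_zero _ hbt) (sub_ne_zero.2 (hne2 0 1 (by decide)))
  have ny : (b.eval t) ^ 2 * ((f 1).eval t - (f 2).eval t) ≠ 0 :=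
    mul_ne_zero (pow_ne_zero _ hbt) (sub_ne_zero.2 (hne2 1 2 (by decide)))
  have nz : (b.eval t) ^ 2 * ((f 2).eval t - (f 0).eval t) ≠ 0 :=
    mul_ne_zero (pow_ne_zero _ hbt) (sub_ne_zero.2 (hne2 2 0 (by decide)))
  rw [ex] at nx
  rw [ey] at ny
  rw [ez] at nz
  have hat : a.eval t ≠ 0 := by
    intro h0
    rw [h0] at nx
    exact nx (by ring)
  have hprod : (C κ * P * x * y * z).eval t ≠ 0 := by
    rw [eval_mul, eval_mul]
    refine mul_ne_zero (mul_ne_zero (right_ne_zero_of_mul nx) ?_) ?_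
    · have := right_ne_zero_of_mul ny
      rw [eval_mul] at this
      exact right_ne_zero_of_mul this
    · have := right_ne_zero_of_mul nz
      rw [eval_mul] at this
      exact right_ne_zero_of_mul this
  obtain ⟨hL, lam, hlam, e1, e2, e3⟩ := hF hprod
  refine ⟨hL, fun i => (f i).eval t, a.eval t / b.eval t * lam,
    mul_ne_zero (div_ne_zero hat hbt) hlam, hRt t, ?_⟩
  rw [e1] at ex
  rw [e2] at ey
  rw [e3] at ez
  have fin : ∀ {g c : ℚ}, (b.eval t) ^ 2 * g = (a.eval t) ^ 2 * (lam ^ 2 * c) →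
      g = (a.eval t / b.eval t * lam) ^ 2 * c := by
    intro g c h
    field_simp
    linear_combination h
  intro i
  fin_cases i
  · exact fin ey
  · exact fin ez
  · exact fin ex

end Pool.Agent.GT.OF.H94
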